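import Pool.Agent.R459.Eq3

set_option autoImplicit false

/-!
# Sequences along random integers with small characteristic functions: the second moment

If a real number `θ` is not too close to the integers at `R` scales `b ^ (i l)`, then its expansion in base `b` has at least `R`
places at which it is far from the integers; this is enough for the exponential sums of the laws with small characteristic
functions.
-/

namespace Pool.Agent.Run7.h672.EX
open Finset
open Pool.Agent.TH872.Mir (Far farCount)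
open Pool.Agent.R459.Eq (Decays)
open Pool.Agent.H807R2.Dav (ee)

/-- a run of places at which the number is close to the integers -/
lemma run (b : ℕ) (hb : 2 ≤ b) (x : ℝ) : ∀ L : ℕ, 1 ≤ L → (∀ j < L, ¬ Far (1 / (b : ℝ) ^ 2) ((b : ℝ) ^ j * x)) →
    ∃ z : ℤ, |x - z| < 1 / (b : ℝ) ^ (L + 1) := by
  have hb2 : (2 : ℝ) ≤ b := by exact_mod_cast hb
  have hb0 : (0 : ℝ) < b := by linarith
  intro L
  induction L with
  | zero => intro h; omega
  | succ L ih =>
    intro _ h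
    have hL := h L (by omega)
    unfold Far at hL
    push Not at hL
    obtain ⟨w, hw⟩ := hL
    rcases Nat.eq_zero_or_pos L with h0 | h0
    · subst h0
      refine ⟨w, ?_⟩
      simpa using hw
    · obtain ⟨z, hz⟩ := ih h0 (fun j hj => h j (by omega))
      refine ⟨z, ?_⟩
      have hp : 0 < (b : ℝ) ^ L := by positivity
      have h1 : |(b : ℝ) ^ L * x - (b : ℝ) ^ L * z| < 1 / b := by
        rw [← mul_sub, abs_mul, abs_of_pos hp]
        calc (b : ℝ) ^ L * |x - z| < (b : ℝ) ^ L * (1 / (b : ℝ) ^ (L + 1)) := mul_lt_mul_of_pos_left hz hp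
          _ = 1 / b := by rw [pow_succ]; field_simp
      have h2 : |((w - (b : ℤ) ^ L * z : ℤ) : ℝ)| < 1 := by
        have e1 : ((w - (b : ℤ) ^ L * z : ℤ) : ℝ) = ((b : ℝ) ^ L * x - (b : ℝ) ^ L * z) - ((b : ℝ) ^ L * x - w) := by
          push_cast
          ring
        rw [e1]
        refine lt_of_le_of_lt (abs_sub _ _) ?_
        have h3 : 1 / (b : ℝ) ≤ 1 / 2 := one_div_le_one_div_of_le (by norm_num) hb2
        have h4 : 1 / (b : ℝ) ^ 2 ≤ 1 / 4 := by
          apply one_div_le_one_div_of_le (by norm_num)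
          nlinarith
        linarith
      have h3 : w = (b : ℤ) ^ L * z := by
        have h4 : |w - (b : ℤ) ^ L * z| < 1 := by exact_mod_cast h2
        have := Int.abs_lt_one_iff.1 h4
        omega
      rw [h3] at hw
      push_cast at hw
      rw [← mul_sub, abs_mul, abs_of_pos hp] at hw
      have h5 : |x - z| < 1 / (b : ℝ) ^ 2 / (b : ℝ) ^ L := by
        rw [lt_div_iff₀ hp, mul_comm]
        exact hw
      refine lt_of_lt_of_eq h5 ?_
      rw [div_div, ← pow_add]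
      congr 2
      ring

/-- the grid of scales -/
lemma grid (b F k R l : ℕ) (hb : 2 ≤ b) (hl : 1 ≤ l) (hRl : R * l ≤ k) (θ : ℝ)
    (h : ∀ i < R, ∀ z : ℤ, 1 / (b : ℝ) ^ (l + 1) ≤ |(F : ℝ) * ((b : ℝ) ^ (i * l) * θ) - z|) : R ≤ farCount b F k θ := by
  classical
  have h1 : ∀ i, i < R → ∃ j, i * l ≤ j ∧ j < (i + 1) * l ∧ Far (1 / (b : ℝ) ^ 2) ((F : ℝ) * ((b : ℝ) ^ j * θ)) := by
    intro i hi
    by_contra hcon
    push Not at hcon
    obtain ⟨z, hz⟩ := run b hb ((F : ℝ) * ((b : ℝ) ^ (i * l) * θ)) l hl (fun j hj => by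
      have h2 := hcon (i * l + j) (by omega) (by rw [add_mul, one_mul]; omega)
      have e1 : (b : ℝ) ^ j * ((F : ℝ) * ((b : ℝ) ^ (i * l) * θ)) = (F : ℝ) * ((b : ℝ) ^ (i * l + j) * θ) := by
        rw [pow_add]
        ring
      rw [e1]
      exact h2)
    exact absurd (h i hi z) (not_le.2 hz)
  choose! f hf using h1
  unfold farCount
  have h2 : ((range R).image f) ⊆ (range k).filter (fun j => Far (1 / (b : ℝ) ^ 2) ((F : ℝ) * ((b : ℝ) ^ j * θ))) := by
    intro j hj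
    rw [mem_image] at hj
    obtain ⟨i, hi, rfl⟩ := hj
    rw [mem_range] at hi
    obtain ⟨g1, g2, g3⟩ := hf i hi
    rw [mem_filter, mem_range]
    refine ⟨?_, g3⟩
    have : (i + 1) * l ≤ R * l := Nat.mul_le_mul_right _ hi
    omega
  have h3 : ((range R).image f).card = R := by
    rw [card_image_of_injOn, card_range]
    intro i hi j hj hij
    rw [mem_coe, mem_range] at hi hj
    obtain ⟨a1, a2, _⟩ := hf i hi
    obtain ⟨b1, b2, _⟩ := hf j hj
    have hij' : f i = f j := hij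
    rcases lt_trichotomy i j with h4 | h4 | h4
    · exfalso
      have : (i + 1) * l ≤ j * l := Nat.mul_le_mul_right _ h4
      omega
    · exact h4
    · exfalso
      have : (j + 1) * l ≤ i * l := Nat.mul_le_mul_right _ h4
      omega
  rw [← h3]
  refine (card_le_card h2).trans (le_of_eq ?_)
  congr!

/-- the second moment -/
theorem second {b F A k : ℕ} {γ : ℝ} (hγ0 : 0 ≤ γ) {p : ℕ → ℝ}
    (hdec : Decays b F A k γ 1 (range (b ^ k)) p (fun v => 0 + 1 * (v : ℕ)))
    (N : ℕ) (x : ℕ → ℝ) (z : ℕ → ℂ) (hz : ∀ n, ‖z n‖ ≤ 1) (B : ℝ) (N' : ℕ) (hAk : A * N' ≤ k)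
    (hB : ∀ m ∈ Icc 1 N, (((Icc 1 N).filter (fun n => ¬ A * (N' + 1) ≤ farCount b F k (x n - x m))).card : ℝ) ≤ B) :
    ∑ v ∈ range (b ^ k), p v * ‖∑ n ∈ Icc 1 N, z n * ee (v * x n)‖ ^ 2 ≤ N * (B + N * γ ^ N') := by
  classical
  have hp0 : ∀ v ∈ range (b ^ k), 0 ≤ p v := hdec.nonneg
  have hp1 : ∑ v ∈ range (b ^ k), p v = 1 := hdec.sum
  have hsq : ∀ v : ℕ, ((‖∑ n ∈ Icc 1 N, z n * ee (v * x n)‖ ^ 2 : ℝ) : ℂ) =
      ∑ m ∈ Icc 1 N, ∑ n ∈ Icc 1 N, (z n * starRingEnd ℂ (z m)) * ee (v * (x n - x m)) := by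
    intro v
    rw [← Complex.normSq_eq_norm_sq, ← Complex.mul_conj, map_sum, mul_comm, sum_mul_sum]
    apply sum_congr rfl
    intro m _
    apply sum_congr rfl
    intro n _
    have e1 : starRingEnd ℂ (ee (v * x m)) = ee (-(v * x m)) := by
      rw [Pool.Agent.H807R2.Dav.ee_eq, Pool.Agent.H807R2.Dav.ee_eq, ← Complex.exp_conj]
      congr 1
      simp only [map_mul, Complex.conj_ofReal, Complex.conj_I]
      push_cast
      ring
    have e2 : ee (v * (x n - x m)) = ee (-(v * x m)) * ee (v * x n) := by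
      rw [← Pool.Agent.H807R2.Dav.ee_add]
      congr 1
      ring
    rw [map_mul, e1, e2]
    ring
  have h1 : ((∑ v ∈ range (b ^ k), p v * ‖∑ n ∈ Icc 1 N, z n * ee (v * x n)‖ ^ 2 : ℝ) : ℂ) =
      ∑ m ∈ Icc 1 N, ∑ n ∈ Icc 1 N, (z n * starRingEnd ℂ (z m)) * ∑ v ∈ range (b ^ k), (p v : ℂ) * ee (v * (x n - x m)) := by
    have e1 : ((∑ v ∈ range (b ^ k), p v * ‖∑ n ∈ Icc 1 N, z n * ee (v * x n)‖ ^ 2 : ℝ) : ℂ) =
        ∑ v ∈ range (b ^ k), (p v : ℂ) * ((‖∑ n ∈ Icc 1 N, z n * ee (v * x n)‖ ^ 2 : ℝ) : ℂ) := by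
      rw [Complex.ofReal_sum]
      apply sum_congr rfl
      intro v _
      rw [Complex.ofReal_mul]
    rw [e1]
    simp_rw [hsq, mul_sum]
    rw [sum_comm]
    apply sum_congr rfl
    intro m _
    rw [sum_comm]
    apply sum_congr rfl
    intro n _
    apply sum_congr rfl
    intro v _
    ring
  have hchar : ∀ θ : ℝ, ‖∑ v ∈ range (b ^ k), (p v : ℂ) * ee (v * θ)‖ ≤ 1 := by
    intro θ
    rw [← hp1]
    refine (norm_sum_le _ _).trans (le_of_eq ?_)
    apply sum_congr rfl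
    intro v hv
    rw [norm_mul, Pool.Agent.H807R2.Dav.norm_ee, mul_one, Complex.norm_real, Real.norm_eq_abs, abs_of_nonneg (hp0 v hv)]
  have hchar2 : ∀ θ : ℝ, A * (N' + 1) ≤ farCount b F k θ → ‖∑ v ∈ range (b ^ k), (p v : ℂ) * ee (v * θ)‖ ≤ γ ^ N' := by
    intro θ hθ
    have h2 := hdec.char θ N' (by
      rw [show ((1 : ℤ) : ℝ) * θ = θ by push_cast; ring]
      exact hθ) hAk
    refine le_trans (le_of_eq ?_) h2
    congr 1
    apply sum_congr rfl
    intro v _
    congr 2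
    push_cast
    ring
  have h0 : 0 ≤ ∑ v ∈ range (b ^ k), p v * ‖∑ n ∈ Icc 1 N, z n * ee (v * x n)‖ ^ 2 :=
    sum_nonneg fun v hv => mul_nonneg (hp0 v hv) (by positivity)
  have h2 : ∑ v ∈ range (b ^ k), p v * ‖∑ n ∈ Icc 1 N, z n * ee (v * x n)‖ ^ 2 =
      ‖((∑ v ∈ range (b ^ k), p v * ‖∑ n ∈ Icc 1 N, z n * ee (v * x n)‖ ^ 2 : ℝ) : ℂ)‖ := by
    rw [Complex.norm_real, Real.norm_eq_abs, abs_of_nonneg h0]
  rw [h2, h1]
  have h3 : ∀ m ∈ Icc 1 N, ‖∑ n ∈ Icc 1 N, (z n * starRingEnd ℂ (z m)) *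
      ∑ v ∈ range (b ^ k), (p v : ℂ) * ee (v * (x n - x m))‖ ≤ B + N * γ ^ N' := by
    intro m hm
    refine (norm_sum_le _ _).trans ?_
    have h4 : ∀ n ∈ Icc 1 N, ‖(z n * starRingEnd ℂ (z m)) * ∑ v ∈ range (b ^ k), (p v : ℂ) * ee (v * (x n - x m))‖ ≤
        (if ¬ A * (N' + 1) ≤ farCount b F k (x n - x m) then (1 : ℝ) else 0) + γ ^ N' := by
      intro n _
      have h5 : ‖z n * starRingEnd ℂ (z m)‖ ≤ 1 := by
        rw [norm_mul, RCLike.norm_conj]
        exact mul_le_one₀ (hz n) (norm_nonneg _) (hz m)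
      rw [norm_mul]
      refine (mul_le_of_le_one_left (norm_nonneg _) h5).trans ?_
      by_cases h6 : A * (N' + 1) ≤ farCount b F k (x n - x m)
      · rw [if_neg (not_not.2 h6), zero_add]
        exact hchar2 _ h6
      · rw [if_pos h6]
        have : 0 ≤ γ ^ N' := by positivity
        linarith [hchar (x n - x m)]
    refine (sum_le_sum h4).trans ?_
    rw [sum_add_distrib, sum_const, nsmul_eq_mul, Nat.card_Icc, Nat.add_sub_cancel, ← sum_filter, sum_const, nsmul_eq_mul,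
      mul_one]
    have := hB m hm
    linarith
  refine (norm_sum_le _ _).trans ((sum_le_sum h3).trans (le_of_eq ?_))
  rw [sum_const, nsmul_eq_mul, Nat.card_Icc, Nat.add_sub_cancel]

end Pool.Agent.Run7.h672.EX
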