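import Pool.Agent.Run7.h672.EX.A
import Pool.Agent.Results.MP_9056e9_nt.AlmostAllExponents

set_option autoImplicit false

/-!
# The sequence `v (ξ e ^ n + P(n))` along random integers `v` with small characteristic functions: exponential sums
-/

namespace Pool.Agent.Run7.h672.EX
open Finset
open Pool.Agent.TH872.Mir (Far farCount)
open Pool.Agent.R459.Eq (Decays)
open Pool.Agent.H807R2.Dav (ee)

/-- few exponents are bad at one of the scales -/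
theorem bad (D : ℕ) : ∃ A₁ : ℝ, 0 < A₁ ∧ ∀ (b F R l : ℕ) (β : ℝ) (P : Polynomial ℝ) (N : ℕ) (δ : ℝ), 2 ≤ b → 1 ≤ F → 0 < δ → δ ≤ 1 →
    1 ≤ |β| → P.natDegree ≤ D → 1 ≤ N → ((F : ℝ) * (b : ℝ) ^ (R * l) * |β| * Real.exp N) ^ δ ≤ (b : ℝ) ^ (l + 1) →
    ∀ [DecidablePred fun n : ℕ => ∃ i < R, ∃ z : ℤ, |(F : ℝ) * ((b : ℝ) ^ (i * l) * (β * Real.exp n + P.eval (n : ℝ))) - z| < 1 / (b : ℝ) ^ (l + 1)],
    (((Icc 1 N).filter (fun n : ℕ => ∃ i < R, ∃ z : ℤ,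
      |(F : ℝ) * ((b : ℝ) ^ (i * l) * (β * Real.exp n + P.eval (n : ℝ))) - z| < 1 / (b : ℝ) ^ (l + 1))).card : ℝ) ≤
      R * (A₁ / δ * (N : ℝ) ^ (1 - δ ^ 2 / (12800 * 2 ^ D))) := by
  classical
  obtain ⟨A₁, hA₁, H⟩ := Pool.Agent.Results.MP_9056e9_nt.AlmostAllExponents.result D
  refine ⟨A₁, hA₁, fun b F R l β P N δ hb hF hδ hδ1 hβ hP hN hsize _ => ?_⟩
  have hb2 : (2 : ℝ) ≤ b := by exact_mod_cast hb
  have hb0 : (0 : ℝ) < b := by linarith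
  have hF1 : (1 : ℝ) ≤ F := by exact_mod_cast hF
  have h1 : ∀ i ∈ range R, (((Icc 1 N).filter (fun n : ℕ => ∃ z : ℤ,
      |(F : ℝ) * ((b : ℝ) ^ (i * l) * (β * Real.exp n + P.eval (n : ℝ))) - z| < 1 / (b : ℝ) ^ (l + 1))).card : ℝ) ≤
      A₁ / δ * (N : ℝ) ^ (1 - δ ^ 2 / (12800 * 2 ^ D)) := by
    intro i hi
    rw [mem_range] at hi
    obtain ⟨g, hg⟩ : ∃ g : ℝ, g = (F : ℝ) * (b : ℝ) ^ (i * l) := ⟨_, rfl⟩
    have hg1 : 1 ≤ g := by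
      rw [hg]
      have : (1 : ℝ) ≤ (b : ℝ) ^ (i * l) := one_le_pow₀ (by linarith)
      nlinarith
    have hg2 : g ≤ (F : ℝ) * (b : ℝ) ^ (R * l) := by
      rw [hg]
      apply mul_le_mul_of_nonneg_left _ (by linarith)
      exact pow_le_pow_right₀ (by linarith) (Nat.mul_le_mul_right _ hi.le)
    have ha : 1 ≤ |g * β| := by
      rw [abs_mul, abs_of_nonneg (by linarith)]
      nlinarith [abs_nonneg β]
    have h2 := H δ (g * β) 1 (Polynomial.C g * P) N hδ hδ1 ha le_rfl ((Polynomial.natDegree_C_mul_le g P).trans hP) hN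
    refine le_trans ?_ h2
    rw [← Set.ncard_coe_finset, Nat.cast_le]
    apply Set.ncard_le_ncard
    · intro n hn
      rw [mem_coe, mem_filter, mem_Icc] at hn
      obtain ⟨⟨hn1, hn2⟩, z, hz⟩ := hn
      refine ⟨hn1, hn2, 1, z, le_rfl, by norm_num, ?_⟩
      have e1 : g * β * Real.exp n + (Polynomial.C g * P).eval (n : ℝ) - z / ((1 : ℕ) : ℝ) =
          (F : ℝ) * ((b : ℝ) ^ (i * l) * (β * Real.exp n + P.eval (n : ℝ))) - z := by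
        rw [Polynomial.eval_mul, Polynomial.eval_C, hg]
        push_cast
        ring
      rw [e1, Real.one_rpow, mul_one]
      refine lt_of_lt_of_le hz ?_
      have h3 : 0 < |g * β| * Real.exp n := by positivity
      rw [Real.rpow_neg h3.le, ← one_div]
      apply one_div_le_one_div_of_le (Real.rpow_pos_of_pos h3 _)
      refine le_trans (Real.rpow_le_rpow h3.le ?_ hδ.le) hsize
      rw [abs_mul, abs_of_nonneg (show (0 : ℝ) ≤ g by linarith)]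
      have h4 : Real.exp (n : ℝ) ≤ Real.exp N := Real.exp_le_exp.2 (by exact_mod_cast hn2)
      gcongr
    · apply Set.Finite.subset (Set.finite_Icc 1 N)
      rintro n ⟨h3, h4, _⟩
      exact ⟨h3, h4⟩
  have h2 : (Icc 1 N).filter (fun n : ℕ => ∃ i < R, ∃ z : ℤ,
      |(F : ℝ) * ((b : ℝ) ^ (i * l) * (β * Real.exp n + P.eval (n : ℝ))) - z| < 1 / (b : ℝ) ^ (l + 1)) ⊆
      (range R).biUnion (fun i => (Icc 1 N).filter (fun n : ℕ => ∃ z : ℤ,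
        |(F : ℝ) * ((b : ℝ) ^ (i * l) * (β * Real.exp n + P.eval (n : ℝ))) - z| < 1 / (b : ℝ) ^ (l + 1))) := by
    intro n hn
    rw [mem_filter] at hn
    obtain ⟨hn1, i, hi, hz⟩ := hn
    rw [mem_biUnion]
    exact ⟨i, mem_range.2 hi, mem_filter.2 ⟨hn1, hz⟩⟩
  have h3 := (card_le_card h2).trans card_biUnion_le
  have h4 : (((Icc 1 N).filter (fun n : ℕ => ∃ i < R, ∃ z : ℤ,
      |(F : ℝ) * ((b : ℝ) ^ (i * l) * (β * Real.exp n + P.eval (n : ℝ))) - z| < 1 / (b : ℝ) ^ (l + 1))).card : ℝ) ≤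
      ∑ i ∈ range R, (((Icc 1 N).filter (fun n : ℕ => ∃ z : ℤ,
      |(F : ℝ) * ((b : ℝ) ^ (i * l) * (β * Real.exp n + P.eval (n : ℝ))) - z| < 1 / (b : ℝ) ^ (l + 1))).card : ℝ) := by
    exact_mod_cast h3
  refine h4.trans ((sum_le_sum h1).trans (le_of_eq ?_))
  rw [sum_const, card_range, nsmul_eq_mul]

/-- the second moment of the exponential sums -/
theorem moment_exp (D : ℕ) : ∃ A₁ : ℝ, 0 < A₁ ∧ ∀ {b F A k : ℕ} {γ : ℝ} (p : ℕ → ℝ), 2 ≤ b → 1 ≤ F → 0 ≤ γ →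
    Decays b F A k γ 1 (range (b ^ k)) p (fun v => 0 + 1 * (v : ℕ)) →
    ∀ (N R N' : ℕ) (δ : ℝ), 1 ≤ N → 1 ≤ R → R ≤ k → A * (N' + 1) ≤ R → A * N' ≤ k → 0 < δ → δ ≤ 1 →
    ∀ (ξ : ℝ) (P : Polynomial ℝ) (h : ℤ), h ≠ 0 → 1 ≤ |ξ| → P.natDegree ≤ D →
    ((F : ℝ) * (b : ℝ) ^ k * |h * ξ| * Real.exp N) ^ δ ≤ (b : ℝ) ^ (k / R + 1) →
    ∀ z : ℕ → ℂ, (∀ n, ‖z n‖ ≤ 1) →
    ∑ v ∈ range (b ^ k), p v * ‖∑ n ∈ Icc 1 N, z n * ee (v * (h * (ξ * Real.exp n + P.eval (n : ℝ))))‖ ^ 2 ≤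
      N * (R * (A₁ / δ * (N : ℝ) ^ (1 - δ ^ 2 / (12800 * 2 ^ D))) + N * γ ^ N') := by
  classical
  obtain ⟨A₁, hA₁, H⟩ := bad D
  refine ⟨A₁, hA₁, ?_⟩
  intro b F A k γ p hb hF hγ hdec N R N' δ hN hR hRk hAR hAk hδ hδ1 ξ P h hh hξ hP hsize z hz
  have hb2 : (2 : ℝ) ≤ b := by exact_mod_cast hb
  have hF1 : (1 : ℝ) ≤ F := by exact_mod_cast hF
  obtain ⟨l, hl⟩ : ∃ l, l = k / R := ⟨_, rfl⟩
  have hl1 : 1 ≤ l := by rw [hl]; exact (Nat.one_le_div_iff (by omega)).2 hRk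
  have hRl : R * l ≤ k := by rw [hl]; exact Nat.mul_div_le k R
  rw [← hl] at hsize
  have hh1 : (1 : ℝ) ≤ |(h : ℝ)| := by
    have : (1 : ℤ) ≤ |h| := Int.one_le_abs hh
    exact_mod_cast this
  have hβ : 1 ≤ |(h : ℝ) * ξ| := by
    rw [abs_mul]
    nlinarith [abs_nonneg ξ]
  refine second hγ hdec N (fun n => h * (ξ * Real.exp n + P.eval (n : ℝ))) z hz _ N' hAk (fun m hm => ?_)
  obtain ⟨c, hc⟩ : ∃ c : ℝ, c = h * (ξ * Real.exp m + P.eval (m : ℝ)) := ⟨_, rfl⟩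
  obtain ⟨P', hP'⟩ : ∃ P' : Polynomial ℝ, P' = Polynomial.C (h : ℝ) * P - Polynomial.C c := ⟨_, rfl⟩
  have hdeg : P'.natDegree ≤ D := by
    rw [hP']
    refine (Polynomial.natDegree_sub_le _ _).trans ?_
    rw [Polynomial.natDegree_C]
    exact max_le ((Polynomial.natDegree_C_mul_le _ P).trans hP) (Nat.zero_le _)
  have h1 := H b F R l ((h : ℝ) * ξ) P' N δ hb hF hδ hδ1 hβ hdeg hN (by
    refine le_trans (Real.rpow_le_rpow (by positivity) ?_ hδ.le) hsize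
    have : (b : ℝ) ^ (R * l) ≤ (b : ℝ) ^ k := pow_le_pow_right₀ (by linarith) hRl
    gcongr)
  refine le_trans ?_ h1
  rw [Nat.cast_le]
  apply card_le_card
  intro n hn
  rw [mem_filter] at hn ⊢
  refine ⟨hn.1, ?_⟩
  by_contra hcon
  push Not at hcon
  apply hn.2
  refine hAR.trans (grid b F k R l hb hl1 hRl _ (fun i hi w => ?_))
  have h2 := hcon i hi w
  have e1 : h * (ξ * Real.exp n + P.eval (n : ℝ)) - h * (ξ * Real.exp m + P.eval (m : ℝ)) =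
      (h : ℝ) * ξ * Real.exp n + P'.eval (n : ℝ) := by
    rw [hP', Polynomial.eval_sub, Polynomial.eval_mul, Polynomial.eval_C, Polynomial.eval_C, hc]
    ring
  rw [e1]
  exact h2

end Pool.Agent.Run7.h672.EX
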