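import Pool.Agent.Run7.h672.EX.B

set_option autoImplicit false

/-!
# The sequence `v (ξ e ^ n + P(n))` along random integers `v`: the saving `exp (- c (log N) ^ (1 / 3))`
-/

namespace Pool.Agent.Run7.h672.EX
open Finset
open Pool.Agent.TH872.Mir (Far farCount)
open Pool.Agent.R459.Eq (Decays)
open Pool.Agent.H807R2.Dav (ee)

/-- the parameter of the savings -/
noncomputable def u (N : ℕ) : ℝ := Real.log N ^ ((1 : ℝ) / 3)

lemma u_nonneg (N : ℕ) : 0 ≤ u N := Real.rpow_nonneg (Real.log_natCast_nonneg N) _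

lemma u_cube (N : ℕ) : u N ^ 3 = Real.log N := by
  unfold u
  rw [← Real.rpow_natCast, ← Real.rpow_mul (Real.log_natCast_nonneg N)]
  norm_num

lemma u_tendsto : Filter.Tendsto u Filter.atTop Filter.atTop := by
  unfold u
  apply (tendsto_rpow_atTop (by norm_num : (0 : ℝ) < 1 / 3)).comp
  exact Real.tendsto_log_atTop.comp tendsto_natCast_atTop_atTop

lemma u_large (T : ℝ) : ∃ N₀ : ℕ, ∀ N : ℕ, N₀ ≤ N → T ≤ u N := by
  obtain ⟨N₀, h⟩ := Filter.eventually_atTop.1 (u_tendsto.eventually_ge_atTop T)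
  exact ⟨N₀, fun N hN => h N hN⟩

/-- `u` is smaller than `N` divided by any constant -/
lemma u_small (T : ℝ) (hT : 0 < T) : ∃ N₀ : ℕ, ∀ N : ℕ, N₀ ≤ N → T * u N ≤ N := by
  have h1 : Filter.Tendsto (fun x : ℝ => Real.log x / x ^ (1 : ℝ)) Filter.atTop (nhds 0) :=
    (isLittleO_log_rpow_atTop (by norm_num : (0 : ℝ) < 1)).tendsto_div_nhds_zero
  have h2 := (h1.comp tendsto_natCast_atTop_atTop).eventually (ge_mem_nhds (show (0 : ℝ) < 1 / T by positivity))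
  obtain ⟨X₂, hX₂⟩ := Filter.eventually_atTop.1 h2
  obtain ⟨X₁, hX₁⟩ := u_large 1
  refine ⟨X₂ + X₁ + 1, fun N hN => ?_⟩
  have h3 := hX₂ N (by omega)
  simp only [Function.comp, Real.rpow_one] at h3
  have hN0 : (0 : ℝ) < N := by exact_mod_cast (by omega : 0 < N)
  rw [div_le_div_iff₀ hN0 hT, one_mul] at h3
  have h4 := hX₁ N (by omega)
  have h5 : u N ≤ u N ^ 3 := le_self_pow₀ h4 (by norm_num)
  rw [u_cube] at h5
  nlinarith

/-- **the exponential sums** -/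
theorem sums (D b F A : ℕ) (hb : 2 ≤ b) (hF : 1 ≤ F) (γ : ℝ) (hγ0 : 0 < γ) (hγ1 : γ < 1) (A₀ : ℝ) (hA₀ : 0 < A₀) :
    ∃ (c C : ℝ) (N₀ : ℕ), 0 < c ∧ 0 < C ∧ ∀ N : ℕ, N₀ ≤ N → ∀ k : ℕ, (N : ℝ) ≤ A₀ * k → ∀ p : ℕ → ℝ,
    Decays b F A k γ 1 (range (b ^ k)) p (fun v => 0 + 1 * (v : ℕ)) →
    ∀ (ξ : ℝ) (P : Polynomial ℝ) (h : ℤ), h ≠ 0 → |(h : ℝ)| ≤ Real.exp k → 1 ≤ |ξ| → |ξ| ≤ Real.exp k → P.natDegree ≤ D →
    ∀ z : ℕ → ℂ, (∀ n, ‖z n‖ ≤ 1) →
    ∑ v ∈ range (b ^ k), p v * ‖∑ n ∈ Icc 1 N, z n * ee (v * (h * (ξ * Real.exp n + P.eval (n : ℝ))))‖ ^ 2 ≤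
      (N : ℝ) ^ 2 * (C * Real.exp (-(c * u N))) := by
  classical
  obtain ⟨A₁, hA₁, H⟩ := moment_exp D
  have hb2 : (2 : ℝ) ≤ b := by exact_mod_cast hb
  have hb0 : (0 : ℝ) < b := by linarith
  have hF1 : (1 : ℝ) ≤ F := by exact_mod_cast hF
  have hlb : 0 < Real.log b := Real.log_pos (by linarith)
  obtain ⟨c₁, hc₁⟩ : ∃ c₁ : ℝ, c₁ = Real.log b / (Real.log b + 3 + A₀) := ⟨_, rfl⟩
  have hc₁0 : 0 < c₁ := by rw [hc₁]; positivity
  have hc₁1 : c₁ ≤ 1 := by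
    rw [hc₁, div_le_one (by positivity)]
    linarith
  obtain ⟨c₃, hc₃⟩ : ∃ c₃ : ℝ, c₃ = c₁ ^ 2 / (12800 * 2 ^ D) := ⟨_, rfl⟩
  have hc₃0 : 0 < c₃ := by rw [hc₃]; positivity
  obtain ⟨c₂, hc₂⟩ : ∃ c₂ : ℝ, c₂ = -Real.log γ / (A + 1) := ⟨_, rfl⟩
  have hlγ : Real.log γ < 0 := Real.log_neg hγ0 hγ1
  have hc₂0 : 0 < c₂ := by rw [hc₂]; apply div_pos (by linarith) (by positivity)
  obtain ⟨n1, hn1⟩ := u_large (A + 2)
  obtain ⟨n2, hn2⟩ := u_small A₀ hA₀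
  obtain ⟨n3, hn3⟩ := exists_nat_ge (A₀ * Real.log F)
  refine ⟨min (c₃ / 2) c₂, A₁ / c₁ * (8 / c₃ ^ 2) + Real.exp (-(3 * Real.log γ)), n1 + n2 + n3 + 1,
    lt_min (by positivity) hc₂0, by positivity, fun N hN k hk p hdec ξ P h hh hhk hξ1 hξk hP z hz => ?_⟩
  have hN1 : 1 ≤ N := by omega
  have hN0 : (0 : ℝ) < N := by exact_mod_cast hN1
  have hk0 : (0 : ℝ) < k := by
    by_contra hcon
    have : (k : ℝ) = 0 := le_antisymm (not_lt.1 hcon) (Nat.cast_nonneg k)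
    rw [this] at hk
    linarith
  obtain ⟨U, hU⟩ : ∃ U, U = u N := ⟨_, rfl⟩
  have hU0 : 0 ≤ U := by rw [hU]; exact u_nonneg N
  have hUA : (A : ℝ) + 2 ≤ U := by rw [hU]; exact hn1 N (by omega)
  have hU3 : U ^ 3 = Real.log N := by rw [hU]; exact u_cube N
  have hUk : U ≤ k := by
    have h1 := hn2 N (by omega)
    rw [← hU] at h1
    have h2 : A₀ * U ≤ A₀ * k := h1.trans hk
    exact le_of_mul_le_mul_left h2 hA₀
  obtain ⟨R, hR⟩ : ∃ R, R = ⌊U⌋₊ := ⟨_, rfl⟩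
  have hRU : (R : ℝ) ≤ U := by rw [hR]; exact Nat.floor_le hU0
  have hUR : U < R + 1 := by rw [hR]; exact Nat.lt_floor_add_one U
  have hRA : A + 2 ≤ R := by
    rw [hR]
    apply Nat.le_floor
    push_cast
    exact hUA
  have hR0 : (0 : ℝ) < R := by exact_mod_cast (by omega : 0 < R)
  have hRk : R ≤ k := by exact_mod_cast hRU.trans hUk
  obtain ⟨N', hN'⟩ : ∃ N', N' = R / (A + 1) - 1 := ⟨_, rfl⟩
  have hdiv : 1 ≤ R / (A + 1) := (Nat.one_le_div_iff (by omega)).2 (by omega)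
  have hAR : A * (N' + 1) ≤ R := by
    have e1 : N' + 1 = R / (A + 1) := by omega
    rw [e1]
    calc A * (R / (A + 1)) ≤ (A + 1) * (R / (A + 1)) := Nat.mul_le_mul_right _ (by omega)
      _ ≤ R := Nat.mul_div_le _ _
  have hAk : A * N' ≤ k := by
    have : A * N' ≤ A * (N' + 1) := Nat.mul_le_mul_left _ (by omega)
    omega
  obtain ⟨δ, hδ⟩ : ∃ δ : ℝ, δ = c₁ / R := ⟨_, rfl⟩
  have hδ0 : 0 < δ := by rw [hδ]; positivity
  have hδ1 : δ ≤ 1 := by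
    rw [hδ, div_le_one hR0]
    have : (1 : ℝ) ≤ R := by exact_mod_cast (by omega : 1 ≤ R)
    linarith
  have hlF : Real.log F ≤ k := by
    have h1 : (n3 : ℝ) ≤ N := by exact_mod_cast (by omega : n3 ≤ N)
    have h2 : A₀ * Real.log F ≤ A₀ * k := (hn3.trans h1).trans hk
    exact le_of_mul_le_mul_left h2 hA₀
  have hh1 : (0 : ℝ) < |(h : ℝ)| := abs_pos.2 (by exact_mod_cast hh)
  have hsize : ((F : ℝ) * (b : ℝ) ^ k * |h * ξ| * Real.exp N) ^ δ ≤ (b : ℝ) ^ (k / R + 1) := by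
    have e1 : (F : ℝ) * (b : ℝ) ^ k * |h * ξ| * Real.exp N ≤ Real.exp (k * (Real.log b + 3 + A₀)) := by
      have g1 : (F : ℝ) ≤ Real.exp k := by
        rw [← Real.exp_log (show (0 : ℝ) < F by linarith)]
        exact Real.exp_le_exp.2 hlF
      have g2 : (b : ℝ) ^ k = Real.exp (k * Real.log b) := by
        rw [← Real.log_pow, Real.exp_log (by positivity)]
      have g3 : Real.exp (N : ℝ) ≤ Real.exp (A₀ * k) := Real.exp_le_exp.2 hk
      rw [abs_mul, g2]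
      calc (F : ℝ) * Real.exp (k * Real.log b) * (|(h : ℝ)| * |ξ|) * Real.exp N
          ≤ Real.exp k * Real.exp (k * Real.log b) * (Real.exp k * Real.exp k) * Real.exp (A₀ * k) := by gcongr
        _ = Real.exp (k * (Real.log b + 3 + A₀)) := by
            rw [← Real.exp_add, ← Real.exp_add, ← Real.exp_add, ← Real.exp_add]
            congr 1
            ring
    refine (Real.rpow_le_rpow (by positivity) e1 hδ0.le).trans ?_
    rw [← Real.exp_mul]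
    have e2 : (b : ℝ) ^ (k / R + 1) = Real.exp (((k / R + 1 : ℕ) : ℝ) * Real.log b) := by
      rw [← Real.log_pow, Real.exp_log (by positivity)]
    rw [e2]
    apply Real.exp_le_exp.2
    have e3 : (k : ℝ) * (Real.log b + 3 + A₀) * δ = k / R * Real.log b := by
      rw [hδ, hc₁]
      field_simp
    rw [e3]
    apply mul_le_mul_of_nonneg_right _ hlb.le
    rw [div_le_iff₀ hR0]
    have h2 : k < R * (k / R + 1) := Nat.lt_mul_div_succ k (by omega)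
    have h3 : (k : ℝ) < R * ((k / R + 1 : ℕ) : ℝ) := by exact_mod_cast h2
    linarith
  have key := H p hb hF hγ0.le hdec N R N' δ hN1 (by omega) hRk hAR hAk hδ0 hδ1 ξ P h hh hξ1 hP hsize z hz
  refine key.trans ?_
  -- the first term
  have t1 : (R : ℝ) * (A₁ / δ * (N : ℝ) ^ (1 - δ ^ 2 / (12800 * 2 ^ D))) ≤
      N * (A₁ / c₁ * (8 / c₃ ^ 2) * Real.exp (-(c₃ / 2 * U))) := by
    have e1 : (N : ℝ) ^ (1 - δ ^ 2 / (12800 * 2 ^ D)) = N * Real.exp (-(δ ^ 2 / (12800 * 2 ^ D) * U ^ 3)) := by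
      rw [sub_eq_add_neg, Real.rpow_add hN0, Real.rpow_one, Real.rpow_def_of_pos hN0, hU3]
      congr 2
      ring
    have e2 : Real.exp (-(δ ^ 2 / (12800 * 2 ^ D) * U ^ 3)) ≤ Real.exp (-(c₃ * U)) := by
      apply Real.exp_le_exp.2
      apply neg_le_neg
      have g1 : c₁ / U ≤ δ := by
        rw [hδ]
        exact div_le_div_of_nonneg_left hc₁0.le hR0 hRU
      have hUpos : 0 < U := by
        have : (0 : ℝ) ≤ A := Nat.cast_nonneg A
        linarith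
      have g2 : (c₁ / U) ^ 2 ≤ δ ^ 2 := pow_le_pow_left₀ (by positivity) g1 2
      calc c₃ * U = (c₁ / U) ^ 2 / (12800 * 2 ^ D) * U ^ 3 := by
            rw [hc₃]
            field_simp
        _ ≤ δ ^ 2 / (12800 * 2 ^ D) * U ^ 3 := by gcongr
    have e3 : U ^ 2 ≤ 8 / c₃ ^ 2 * Real.exp (c₃ / 2 * U) := by
      have g1 : (c₃ / 2 * U) ^ 2 / 2 ≤ Real.exp (c₃ / 2 * U) := by
        have := Real.quadratic_le_exp_of_nonneg (show 0 ≤ c₃ / 2 * U by positivity)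
        nlinarith [show 0 ≤ c₃ / 2 * U by positivity]
      rw [div_mul_eq_mul_div, le_div_iff₀ (by positivity)]
      nlinarith
    have e4 : (R : ℝ) * (A₁ / δ) ≤ A₁ / c₁ * U ^ 2 := by
      have : (R : ℝ) * (A₁ / δ) = A₁ / c₁ * (R : ℝ) ^ 2 := by
        rw [hδ]
        field_simp
      rw [this]
      gcongr
    calc (R : ℝ) * (A₁ / δ * (N : ℝ) ^ (1 - δ ^ 2 / (12800 * 2 ^ D)))
        = (R : ℝ) * (A₁ / δ) * (N * Real.exp (-(δ ^ 2 / (12800 * 2 ^ D) * U ^ 3))) := by rw [e1]; ring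
      _ ≤ (A₁ / c₁ * (8 / c₃ ^ 2 * Real.exp (c₃ / 2 * U))) * (N * Real.exp (-(c₃ * U))) := by
          have : (R : ℝ) * (A₁ / δ) ≤ A₁ / c₁ * (8 / c₃ ^ 2 * Real.exp (c₃ / 2 * U)) :=
            e4.trans (mul_le_mul_of_nonneg_left e3 (by positivity))
          gcongr
      _ = N * (A₁ / c₁ * (8 / c₃ ^ 2) * (Real.exp (c₃ / 2 * U) * Real.exp (-(c₃ * U)))) := by ring
      _ = _ := by
          rw [← Real.exp_add]
          congr 3
          ring
  have t2 : (N : ℝ) * γ ^ N' ≤ N * (Real.exp (-(3 * Real.log γ)) * Real.exp (-(c₂ * U))) := by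
    apply mul_le_mul_of_nonneg_left _ hN0.le
    have e1 : γ ^ N' = Real.exp (N' * Real.log γ) := by
      rw [← Real.log_pow, Real.exp_log (by positivity)]
    rw [e1, ← Real.exp_add]
    apply Real.exp_le_exp.2
    have e2 : U / (A + 1) - 3 ≤ N' := by
      have g1 : (R : ℝ) < (A + 1) * ((R / (A + 1) : ℕ) : ℝ) + (A + 1) := by
        have h2 : R < (A + 1) * (R / (A + 1)) + (A + 1) := Nat.lt_mul_div_succ R (by omega)
        exact_mod_cast h2
      have g2 : (N' : ℝ) = ((R / (A + 1) : ℕ) : ℝ) - 1 := by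
        rw [hN', Nat.cast_sub hdiv]
        push_cast
        ring
      have hA1 : (0 : ℝ) < A + 1 := by positivity
      rw [g2, sub_le_iff_le_add, div_le_iff₀ hA1]
      have hA0 : (0 : ℝ) ≤ A := Nat.cast_nonneg A
      nlinarith
    have e3 : c₂ * U = -(U / (A + 1) * Real.log γ) := by
      rw [hc₂]
      field_simp
    rw [e3]
    nlinarith
  have t3 : Real.exp (-(c₃ / 2 * U)) ≤ Real.exp (-(min (c₃ / 2) c₂ * U)) := by
    apply Real.exp_le_exp.2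
    apply neg_le_neg
    exact mul_le_mul_of_nonneg_right (min_le_left _ _) hU0
  have t4 : Real.exp (-(c₂ * U)) ≤ Real.exp (-(min (c₃ / 2) c₂ * U)) := by
    apply Real.exp_le_exp.2
    apply neg_le_neg
    exact mul_le_mul_of_nonneg_right (min_le_right _ _) hU0
  rw [← hU]
  calc (N : ℝ) * ((R : ℝ) * (A₁ / δ * (N : ℝ) ^ (1 - δ ^ 2 / (12800 * 2 ^ D))) + N * γ ^ N')
      ≤ N * (N * (A₁ / c₁ * (8 / c₃ ^ 2) * Real.exp (-(c₃ / 2 * U))) + N * (Real.exp (-(3 * Real.log γ)) * Real.exp (-(c₂ * U)))) := by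
        gcongr
    _ ≤ N * (N * (A₁ / c₁ * (8 / c₃ ^ 2) * Real.exp (-(min (c₃ / 2) c₂ * U))) +
          N * (Real.exp (-(3 * Real.log γ)) * Real.exp (-(min (c₃ / 2) c₂ * U)))) := by gcongr
    _ = _ := by ring

end Pool.Agent.Run7.h672.EX
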