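import Pool.Agent.Run7.h672.EX.C
import Pool.Agent.R485.Trans.Saw

set_option autoImplicit false

/-!
# The sequence `v (ξ e ^ n + P(n)) + y_n` along random integers `v`: the discrepancy
-/

namespace Pool.Agent.Run7.h672.EX
open Finset
open Pool.Agent.TH872.Mir (Far farCount)
open Pool.Agent.R459.Eq (Decays)
open Pool.Agent.H807R2.Dav (ee)
open Pool.Agent.R485.Trans (saw_bound indicator_eq)

open Classical in
/-- the number of the `n`, `1 ≤ n ≤ N`, such that the fractional part of `x n` lies in `[α, β)` -/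
noncomputable def cnt (x : ℕ → ℝ) (N : ℕ) (α β : ℝ) : ℕ :=
  ((Icc 1 N).filter (fun n => α ≤ Int.fract (x n) ∧ Int.fract (x n) < β)).card

/-- The first `N` terms of the sequence `x` are equidistributed modulo one with discrepancy at most `ε`: every interval
`[α, β)` holds between `(β - α - ε) N` and `(β - α + ε) N` of their fractional parts. -/
def Equi (x : ℕ → ℝ) (N : ℕ) (ε : ℝ) : Prop :=
  ∀ α β : ℝ, 0 ≤ α → α < β → β ≤ 1 → |(cnt x N α β : ℝ) - (β - α) * N| ≤ ε * N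

lemma e_eq (x : ℝ) : Pool.Agent.H469R2.NK.e x = ee x := by
  rw [Pool.Agent.H807R2.Dav.ee_eq]
  rfl

/-- the discrepancy from the exponential sums -/
lemma equi_of (x : ℕ → ℝ) (N K : ℕ) (hK : 1 ≤ K) (δ : ℝ) (hδ0 : 0 < δ) (hδ1 : δ ≤ 1) (α β : ℝ) (h0 : 0 ≤ α) (h1 : α < β) (h2 : β ≤ 1) :
    |(cnt x N α β : ℝ) - (β - α) * N| ≤
      2 * (∑ h ∈ Icc 1 K, ‖∑ n ∈ Icc 1 N, ee (h * x n)‖ / h + N / (K * δ) + N * δ) := by
  classical
  have e1 : (cnt x N α β : ℝ) - (β - α) * N = ∑ n ∈ Icc 1 N, ((if α ≤ Int.fract (x n) ∧ Int.fract (x n) < β then (1 : ℝ) else 0) - (β - α)) := by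
    rw [sum_sub_distrib, sum_const, nsmul_eq_mul, Nat.card_Icc, Nat.add_sub_cancel, ← sum_filter, sum_const, nsmul_eq_mul, mul_one]
    unfold cnt
    rw [mul_comm (N : ℝ)]
  have e2 : (cnt x N α β : ℝ) - (β - α) * N = ∑ n ∈ Icc 1 N, (Int.fract (x n - β) - 1 / 2) - ∑ n ∈ Icc 1 N, (Int.fract (x n - α) - 1 / 2) := by
    rw [e1, ← sum_sub_distrib]
    apply sum_congr rfl
    intro n _
    exact indicator_eq (x n) α β h0 h1 h2
  have hb : ∀ t : ℝ, |∑ n ∈ Icc 1 N, (Int.fract (x n - t) - 1 / 2)| ≤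
      ∑ h ∈ Icc 1 K, ‖∑ n ∈ Icc 1 N, ee (h * x n)‖ / h + N / (K * δ) + N * δ := by
    intro t
    have h3 := saw_bound (Icc 1 N) (fun n => x n - t) K hK δ hδ0 hδ1
    rw [Nat.card_Icc, Nat.add_sub_cancel] at h3
    refine h3.trans (le_of_eq ?_)
    congr 2
    apply sum_congr rfl
    intro h _
    congr 1
    have e3 : ∑ n ∈ Icc 1 N, Pool.Agent.H469R2.NK.e (h * (x n - t)) = ee (-(h * t)) * ∑ n ∈ Icc 1 N, ee (h * x n) := by
      rw [mul_sum]
      apply sum_congr rfl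
      intro n _
      rw [e_eq, ← Pool.Agent.H807R2.Dav.ee_add]
      congr 1
      ring
    rw [e3, norm_mul, Pool.Agent.H807R2.Dav.norm_ee, one_mul]
  rw [e2]
  refine (abs_sub _ _).trans ?_
  linarith [hb α, hb β]

open Classical in
/-- **the discrepancy** -/
theorem disc (D b F A : ℕ) (hb : 2 ≤ b) (hF : 1 ≤ F) (γ : ℝ) (hγ0 : 0 < γ) (hγ1 : γ < 1) (A₀ : ℝ) (hA₀ : 0 < A₀) :
    ∃ (c : ℝ) (N₀ : ℕ), 0 < c ∧ ∀ N : ℕ, N₀ ≤ N → ∀ k : ℕ, (N : ℝ) ≤ A₀ * k → ∀ p : ℕ → ℝ,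
    Decays b F A k γ 1 (range (b ^ k)) p (fun v => 0 + 1 * (v : ℕ)) →
    ∀ (ξ : ℝ) (P : Polynomial ℝ), 1 ≤ |ξ| → |ξ| ≤ Real.exp k → P.natDegree ≤ D → ∀ y : ℕ → ℝ,
    ∑ v ∈ range (b ^ k), (if Equi (fun n => v * (ξ * Real.exp n + P.eval (n : ℝ)) + y n) N (Real.exp (-(c * u N))) then 0
      else p v) ≤ Real.exp (-(c * u N)) := by
  obtain ⟨c₀, C, N₁, hc₀, hC, H⟩ := sums D b F A hb hF γ hγ0 hγ1 A₀ hA₀
  obtain ⟨n1, hn1⟩ := u_large (64 * (Real.log (24 * (C + 1)) + 1) / c₀)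
  obtain ⟨n2, hn2⟩ := u_small (A₀ * (c₀ / 8)) (by positivity)
  refine ⟨c₀ / 64, N₁ + n1 + n2 + 1, by positivity, fun N hN k hk p hdec ξ P hξ1 hξk hP y => ?_⟩
  have hN0 : (0 : ℝ) < N := by exact_mod_cast (by omega : 0 < N)
  have hp0 : ∀ v ∈ range (b ^ k), 0 ≤ p v := hdec.nonneg
  have hp1 : ∑ v ∈ range (b ^ k), p v = 1 := hdec.sum
  obtain ⟨U, hU⟩ : ∃ U, U = u N := ⟨_, rfl⟩
  have hU0 : 0 ≤ U := by rw [hU]; exact u_nonneg N
  have hlog24 : 3 ≤ Real.log (24 * (C + 1)) := by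
    rw [Real.le_log_iff_exp_le (by positivity)]
    have h1 : Real.exp 3 = Real.exp 1 ^ 3 := by rw [← Real.exp_nat_mul]; norm_num
    have h2 := Real.exp_one_lt_d9
    have h3 := Real.exp_pos 1
    have h4 : Real.exp 1 ^ 3 ≤ 2.7182818286 ^ 3 := pow_le_pow_left₀ h3.le h2.le 3
    rw [h1]
    refine h4.trans ?_
    nlinarith
  have hUl : 64 * (Real.log (24 * (C + 1)) + 1) / c₀ ≤ U := by rw [hU]; exact hn1 N (by omega)
  rw [div_le_iff₀ hc₀] at hUl
  rw [← hU]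
  -- `E` is the unit of the savings
  obtain ⟨E, hE⟩ : ∃ E : ℝ, E = Real.exp (-(c₀ / 64 * U)) := ⟨_, rfl⟩
  have hE0 : 0 < E := by rw [hE]; exact Real.exp_pos _
  have hEpow : ∀ m : ℕ, E ^ m = Real.exp (-(m * (c₀ / 64 * U))) := by
    intro m
    rw [hE, ← Real.exp_nat_mul]
    congr 1
    ring
  have hEs : 24 * (C + 1) * E ≤ 1 := by
    have h1 : E ≤ Real.exp (-Real.log (24 * (C + 1))) := by
      rw [hE]
      apply Real.exp_le_exp.2
      apply neg_le_neg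
      linarith
    rw [Real.exp_neg, Real.exp_log (by positivity)] at h1
    calc 24 * (C + 1) * E ≤ 24 * (C + 1) * (24 * (C + 1))⁻¹ := mul_le_mul_of_nonneg_left h1 (by positivity)
      _ = 1 := mul_inv_cancel₀ (by positivity)
  have hE1 : E ≤ 1 := by nlinarith
  have hE24 : 24 * E ≤ 1 := by nlinarith
  obtain ⟨K, hK⟩ : ∃ K, K = ⌊Real.exp (c₀ / 8 * U)⌋₊ := ⟨_, rfl⟩
  have hK1r : 1 ≤ Real.exp (c₀ / 8 * U) := Real.one_le_exp (by positivity)
  have hK1 : 1 ≤ K := by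
    rw [hK]
    apply Nat.le_floor
    simpa using hK1r
  have hKle : (K : ℝ) ≤ Real.exp (c₀ / 8 * U) := by rw [hK]; exact Nat.floor_le (by positivity)
  have hKge : Real.exp (c₀ / 8 * U) ≤ 2 * K := by
    have h1 : Real.exp (c₀ / 8 * U) < K + 1 := by rw [hK]; exact Nat.lt_floor_add_one _
    have h2 : (1 : ℝ) ≤ K := by exact_mod_cast hK1
    linarith
  have hK0 : (0 : ℝ) < K := by exact_mod_cast hK1
  have hE8 : Real.exp (c₀ / 8 * U) * E ^ 8 = 1 := by
    rw [hEpow, ← Real.exp_add]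
    have : c₀ / 8 * U + -(((8 : ℕ) : ℝ) * (c₀ / 64 * U)) = 0 := by push_cast; ring
    rw [this, Real.exp_zero]
  have hKk : ∀ h ∈ Icc 1 K, |(((h : ℕ) : ℤ) : ℝ)| ≤ Real.exp k := by
    intro h hh
    rw [mem_Icc] at hh
    have h1 := hn2 N (by omega)
    rw [← hU] at h1
    have h2 : A₀ * (c₀ / 8 * U) ≤ A₀ * k := by
      have := h1.trans hk
      linarith
    have h3 : c₀ / 8 * U ≤ k := le_of_mul_le_mul_left h2 hA₀
    have h4 : (h : ℝ) ≤ K := by exact_mod_cast hh.2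
    have h5 : |(((h : ℕ) : ℤ) : ℝ)| = (h : ℝ) := by
      rw [Int.cast_natCast]
      exact abs_of_nonneg (Nat.cast_nonneg h)
    rw [h5]
    exact h4.trans (hKle.trans (Real.exp_le_exp.2 h3))
  obtain ⟨S, hS⟩ : ∃ S : ℕ → ℕ → ℝ, S = fun (h v : ℕ) => ‖∑ n ∈ Icc 1 N, ee ((h : ℝ) * ((v : ℝ) * (ξ * Real.exp n + P.eval (n : ℝ)) + y n))‖ := ⟨_, rfl⟩
  have hS2 : ∀ h ∈ Icc 1 K, ∑ v ∈ range (b ^ k), p v * S h v ^ 2 ≤ (N : ℝ) ^ 2 * (C * E ^ 64) := by
    intro h hh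
    have hh' := mem_Icc.1 hh
    have h1 := H N (by omega) k hk p hdec ξ P ((h : ℕ) : ℤ) (by omega) (hKk h hh) hξ1 hξk hP (fun n => ee (h * y n)) (fun n => by
      rw [Pool.Agent.H807R2.Dav.norm_ee])
    have e1 : E ^ 64 = Real.exp (-(c₀ * u N)) := by
      rw [hEpow, ← hU]
      congr 1
      push_cast
      ring
    rw [e1]
    refine le_trans (le_of_eq ?_) h1
    apply sum_congr rfl
    intro v _
    rw [hS]
    simp only
    congr 3
    apply sum_congr rfl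
    intro n _
    rw [← Pool.Agent.H807R2.Dav.ee_add]
    congr 1
    push_cast
    ring
  have hS1 : ∀ h ∈ Icc 1 K, ∑ v ∈ range (b ^ k), p v * S h v ≤ N * ((C + 1) * E ^ 32) := by
    intro h hh
    have h1 := hS2 h hh
    have h2 : ∀ v ∈ range (b ^ k), p v * S h v ≤ p v * S h v ^ 2 / (N * E ^ 32) + p v * (N * E ^ 32) := by
      intro v hv
      have hpv := hp0 v hv
      have hτ : 0 < N * E ^ 32 := by positivity
      have h3 : S h v ≤ S h v ^ 2 / (N * E ^ 32) + N * E ^ 32 := by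
        rw [div_add' _ _ _ hτ.ne', le_div_iff₀ hτ]
        nlinarith [sq_nonneg (S h v - N * E ^ 32), sq_nonneg (S h v)]
      calc p v * S h v ≤ p v * (S h v ^ 2 / (N * E ^ 32) + N * E ^ 32) := mul_le_mul_of_nonneg_left h3 hpv
        _ = _ := by ring
    refine (sum_le_sum h2).trans ?_
    rw [sum_add_distrib, ← sum_div, ← sum_mul, hp1, one_mul]
    have h3 : (∑ v ∈ range (b ^ k), p v * S h v ^ 2) / (N * E ^ 32) ≤ N * (C * E ^ 32) := by
      rw [div_le_iff₀ (by positivity)]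
      refine h1.trans (le_of_eq ?_)
      ring
    calc (∑ v ∈ range (b ^ k), p v * S h v ^ 2) / (N * E ^ 32) + N * E ^ 32 ≤ N * (C * E ^ 32) + N * E ^ 32 := by linarith
      _ = _ := by ring
  obtain ⟨T, hT⟩ : ∃ T : ℕ → ℝ, T = fun v => ∑ h ∈ Icc 1 K, S h v / h := ⟨_, rfl⟩
  have hS0 : ∀ h v, 0 ≤ S h v := by
    intro h v
    rw [hS]
    exact norm_nonneg _
  have hT0 : ∀ v, 0 ≤ T v := by
    intro v
    rw [hT]
    exact sum_nonneg fun h _ => div_nonneg (hS0 h v) (Nat.cast_nonneg h)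
  have hT1 : ∑ v ∈ range (b ^ k), p v * T v ≤ N * ((C + 1) * E ^ 24) := by
    have e1 : ∑ v ∈ range (b ^ k), p v * T v = ∑ h ∈ Icc 1 K, (∑ v ∈ range (b ^ k), p v * S h v) / h := by
      rw [hT]
      simp only
      have : ∀ h ∈ Icc 1 K, (∑ v ∈ range (b ^ k), p v * S h v) / (h : ℝ) = ∑ v ∈ range (b ^ k), p v * (S h v / h) := by
        intro h _
        rw [sum_div]
        apply sum_congr rfl
        intro v _
        ring
      rw [sum_congr rfl this, sum_comm]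
      apply sum_congr rfl
      intro v _
      rw [mul_sum]
    rw [e1]
    calc ∑ h ∈ Icc 1 K, (∑ v ∈ range (b ^ k), p v * S h v) / (h : ℝ) ≤ ∑ h ∈ Icc 1 K, N * ((C + 1) * E ^ 32) := by
          apply sum_le_sum
          intro h hh
          refine (div_le_self (sum_nonneg fun v hv => mul_nonneg (hp0 v hv) (hS0 h v)) ?_).trans (hS1 h hh)
          exact_mod_cast (mem_Icc.1 hh).1
      _ = K * (N * ((C + 1) * E ^ 32)) := by rw [sum_const, nsmul_eq_mul, Nat.card_Icc, Nat.add_sub_cancel]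
      _ ≤ Real.exp (c₀ / 8 * U) * (N * ((C + 1) * E ^ 32)) := mul_le_mul_of_nonneg_right hKle (by positivity)
      _ = N * ((C + 1) * E ^ 24) * (Real.exp (c₀ / 8 * U) * E ^ 8) := by ring
      _ = N * ((C + 1) * E ^ 24) := by rw [hE8, mul_one]
  -- outside of the exceptional set
  have hgood : ∀ v : ℕ, ¬ Equi (fun n => v * (ξ * Real.exp n + P.eval (n : ℝ)) + y n) N E → N * E ≤ 4 * T v := by
    intro v hv
    unfold Equi at hv
    push Not at hv
    obtain ⟨α, β, h0, h1, h2, h3⟩ := hv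
    have h4 := equi_of (fun n => v * (ξ * Real.exp n + P.eval (n : ℝ)) + y n) N K hK1 (E ^ 4) (by positivity)
      (pow_le_one₀ hE0.le hE1) α β h0 h1 h2
    have h5 : ∑ h ∈ Icc 1 K, ‖∑ n ∈ Icc 1 N, ee (h * (v * (ξ * Real.exp n + P.eval (n : ℝ)) + y n))‖ / (h : ℝ) = T v := by
      rw [hT, hS]
    rw [h5] at h4
    have h6 : (N : ℝ) / (K * E ^ 4) ≤ 2 * (N * E ^ 4) := by
      rw [div_le_iff₀ (by positivity)]
      have h7 : 1 ≤ 2 * K * E ^ 8 := by
        calc (1 : ℝ) = Real.exp (c₀ / 8 * U) * E ^ 8 := hE8.symm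
          _ ≤ 2 * K * E ^ 8 := mul_le_mul_of_nonneg_right hKge (by positivity)
      calc (N : ℝ) = N * 1 := (mul_one _).symm
        _ ≤ N * (2 * K * E ^ 8) := mul_le_mul_of_nonneg_left h7 hN0.le
        _ = _ := by ring
    have h8 : 12 * E ^ 4 ≤ E := by
      have g1 : E ^ 3 ≤ E := pow_le_of_le_one hE0.le hE1 (by norm_num)
      calc 12 * E ^ 4 = 12 * E ^ 3 * E := by ring
        _ ≤ 12 * E * E := by gcongr
        _ ≤ 1 * E := mul_le_mul_of_nonneg_right (by linarith) hE0.le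
        _ = E := one_mul _
    have h9 : N * (12 * E ^ 4) ≤ N * E := mul_le_mul_of_nonneg_left h8 hN0.le
    nlinarith
  have hfin : (N * E) * ∑ v ∈ range (b ^ k), (if Equi (fun n => v * (ξ * Real.exp n + P.eval (n : ℝ)) + y n) N E then 0
      else p v) ≤ (N * E) * E := by
    rw [mul_sum]
    have h1 : ∀ v ∈ range (b ^ k), (N * E) * (if Equi (fun n => v * (ξ * Real.exp n + P.eval (n : ℝ)) + y n) N E then 0
        else p v) ≤ 4 * (p v * T v) := by
      intro v hv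
      split_ifs with h2
      · rw [mul_zero]
        exact mul_nonneg (by norm_num) (mul_nonneg (hp0 v hv) (hT0 v))
      · have h3 := hgood v h2
        calc (N * E) * p v ≤ (4 * T v) * p v := mul_le_mul_of_nonneg_right h3 (hp0 v hv)
          _ = _ := by ring
    refine (sum_le_sum h1).trans ?_
    rw [← mul_sum]
    have h2 : 4 * ((C + 1) * E ^ 24) ≤ E * E := by
      have g1 : E ^ 21 ≤ 1 := pow_le_one₀ hE0.le hE1
      calc 4 * ((C + 1) * E ^ 24) = (4 * (C + 1) * E) * (E ^ 21) * (E * E) := by ring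
        _ ≤ 1 * 1 * (E * E) := by
            have : 4 * (C + 1) * E ≤ 1 := by nlinarith
            gcongr
        _ = E * E := by ring
    calc 4 * ∑ v ∈ range (b ^ k), p v * T v ≤ 4 * (N * ((C + 1) * E ^ 24)) := mul_le_mul_of_nonneg_left hT1 (by norm_num)
      _ = N * (4 * ((C + 1) * E ^ 24)) := by ring
      _ ≤ N * (E * E) := mul_le_mul_of_nonneg_left h2 hN0.le
      _ = _ := by ring
  rw [← hE]
  exact le_of_mul_le_mul_left hfin (by positivity)

end Pool.Agent.Run7.h672.EX
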